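import Pool.Agent.Y129.TaskSBasic
import Pool.Agent.Y129.TaskAng
import Pool.Agent.Y129.TaskWindow
import Pool.Agent.Y129.TaskRange
import Pool.Agent.Y129.TaskArmRight
import Pool.Agent.Y129.TaskArmLeft
import Pool.Agent.Y129.TaskEquiv
import Pool.Agent.Y129.TaskRot
import Pool.Agent.Y129.TaskShift
import Pool.Agent.Y129.TaskNormal
import Pool.Agent.Y129.TaskAllV
import Pool.Agent.Y129.TaskReflexArc
import Pool.Agent.Y129.TaskRank
import Pool.Agent.Y129.TaskCrit
import Pool.Agent.Y129.TaskSlide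
import Pool.Agent.Y129.TaskPairsConvex
import Pool.Agent.Y129.TaskTurn
import Pool.Agent.Y129.TaskPairsReflex
import Pool.Agent.Y129.TaskNoReflexArc
import Pool.Agent.Y129.TaskUpper
import Pool.Agent.Y129.TaskLeft
import Pool.Agent.Y129.TaskSimple
import Pool.Agent.Y129.TaskPoly
import Pool.Agent.Y129.TaskPeriodic
import Pool.Agent.Y129.TaskClose
import Pool.Agent.Y129.TaskSharp
import Pool.Agent.Y129.TaskLowGlue
import Pool.Agent.Y129.TaskSidon
import Pool.Agent.Y129.TaskLowDist
import Pool.Agent.Y129.TaskLower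

/-!
# Counting three-leaf gluing trees of a polygon (MP_d9fc2a_co)

The maximum number `f n` of three-leaf gluing trees of a simple polygon with `n` vertices has order
`n ^ 3`; so the upper bound `O (n ^ 4)` is not tight.
-/

namespace Pool.Agent.Results.MP_d9fc2a_co.CubicOrder

open Pool.Agent.Y129 Asymptotics

/-- The maximum number of combinatorial types of three-leaf gluings of a simple polygon with `n`
vertices: the supremum of the sizes of sets of gluings of one polygon of pairwise different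
types. -/
noncomputable def f (n : ℕ) : ℕ∞ :=
  ⨆ (P : Pool.Agent.Y129.Poly n) (F : Finset (Gluing P)) (_ : Distinct F), (F.card : ℕ∞)

theorem upper : TaskUpper :=
  TaskUpper.main TaskEquiv.main
    (TaskNormal.main TaskSBasic.main (TaskAng.main TaskSBasic.main) TaskEquiv.main
      (TaskRot.main TaskSBasic.main (TaskAng.main TaskSBasic.main))
      (TaskShift.main TaskSBasic.main (TaskAng.main TaskSBasic.main)))
    (TaskAllV.main TaskSBasic.main)
    (TaskReflexArc.main TaskSBasic.main (TaskAng.main TaskSBasic.main))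
    (TaskNoReflexArc.main
      (TaskSlide.main TaskSBasic.main (TaskAng.main TaskSBasic.main)
        (TaskArmRight.main TaskRange.main) (TaskArmLeft.main TaskRange.main) TaskRank.main
        (TaskCrit.main TaskSBasic.main))
      (TaskPairsConvex.main TaskSBasic.main (TaskAng.main TaskSBasic.main) TaskWindow.main)
      (TaskPairsReflex.main TaskSBasic.main (TaskAng.main TaskSBasic.main)
        (TaskTurn.main TaskSBasic.main (TaskAng.main TaskSBasic.main) TaskWindow.main)))

theorem lower : TaskLower :=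
  TaskLower.main TaskEquiv.main
    (TaskSharp.main (TaskPoly.main (TaskSimple.main TaskLeft.main)) TaskPeriodic.main
      TaskClose.main)
    (TaskLowGlue.main TaskSBasic.main (TaskAng.main TaskSBasic.main)) TaskSidon.main
    (TaskLowDist.main TaskSBasic.main (TaskAng.main TaskSBasic.main))

theorem f_le (n : ℕ) : f n ≤ ((124 * n ^ 3 : ℕ) : ℕ∞) := by
  refine iSup_le fun P => iSup_le fun F => iSup_le fun hF => ?_
  exact_mod_cast upper n P F hF

theorem lower' (n : ℕ) (hn : 5 ≤ n) : ∃ P : Pool.Agent.Y129.Poly n, (∀ k, P.α k < Real.pi) ∧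
    ∃ F : Finset (Gluing P), Distinct F ∧ (n - 2).choose 3 ≤ F.card := by
  obtain ⟨N, rfl⟩ : ∃ N, n = N + 2 := ⟨n - 2, by omega⟩
  exact lower N (by omega)

theorem le_f (n : ℕ) (hn : 5 ≤ n) : (((n - 2).choose 3 : ℕ) : ℕ∞) ≤ f n := by
  obtain ⟨P, -, F, hF, hc⟩ := lower' n hn
  calc (((n - 2).choose 3 : ℕ) : ℕ∞) ≤ (F.card : ℕ∞) := by exact_mod_cast hc
    _ ≤ f n := le_iSup_of_le P (le_iSup_of_le F (le_iSup_of_le hF le_rfl))

theorem choose_ge (n : ℕ) (hn : 6 ≤ n) : n ^ 3 ≤ 54 * (n - 2).choose 3 := by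
  obtain ⟨m, rfl⟩ : ∃ m, n = m + 4 := ⟨n - 4, by omega⟩
  have h1 : (m + 4 - 2).choose 3 = (m + 2).choose 3 := by congr 1
  rw [h1]
  have h2 : (m + 2).choose 3 * 6 = (m + 2) * (m + 1) * m := by
    have := Nat.choose_mul_factorial_mul_factorial (n := m + 2) (k := 3)
    have h3 := Nat.descFactorial_eq_factorial_mul_choose (m + 2) 3
    have h4 : (m + 2).descFactorial 3 = (m + 2) * (m + 1) * m := by
      simp [Nat.descFactorial]
      ring
    rw [h4] at h3
    have h5 : Nat.factorial 3 = 6 := rfl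
    rw [h5] at h3
    omega
  have h3 : 2 ≤ m := by omega
  obtain ⟨k, rfl⟩ : ∃ k, m = k + 2 := ⟨m - 2, by omega⟩
  nlinarith [sq_nonneg (k : ℤ), Nat.zero_le (k ^ 3), Nat.zero_le (k ^ 2), Nat.zero_le k]

/-- The order of growth of `f`. -/
theorem result :
    (∀ n, f n ≤ ((124 * n ^ 3 : ℕ) : ℕ∞)) ∧
    (∀ n, 5 ≤ n → ∃ P : Pool.Agent.Y129.Poly n, (∀ k, P.α k < Real.pi) ∧
      ∃ F : Finset (Gluing P), Distinct F ∧ (n - 2).choose 3 ≤ F.card) ∧
    (fun n => ((f n).toNat : ℝ)) =Θ[Filter.atTop] (fun n : ℕ => (n : ℝ) ^ 3) := by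
  refine ⟨f_le, lower', ?_, ?_⟩
  · apply IsBigO.of_bound 124
    filter_upwards with n
    rw [Real.norm_of_nonneg (by positivity), Real.norm_of_nonneg (by positivity)]
    have h1 := f_le n
    have h2 : (f n).toNat ≤ 124 * n ^ 3 := ENat.toNat_le_of_le_natCast h1
    exact_mod_cast h2
  · apply IsBigO.of_bound 54
    filter_upwards [Filter.eventually_ge_atTop 6] with n hn
    rw [Real.norm_of_nonneg (by positivity), Real.norm_of_nonneg (by positivity)]
    have h1 := f_le n
    have h2 := le_f n (by omega)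
    have h3 : f n ≠ ⊤ := ne_top_of_le_ne_top (ENat.natCast_ne_top _) h1
    have h4 : (n - 2).choose 3 ≤ (f n).toNat := by
      rw [← ENat.natCast_toNat h3] at h2
      exact_mod_cast h2
    have h5 := choose_ge n hn
    have h6 : n ^ 3 ≤ 54 * (f n).toNat := h5.trans (Nat.mul_le_mul_left _ h4)
    exact_mod_cast h6

end Pool.Agent.Results.MP_d9fc2a_co.CubicOrder
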